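import Mathlib.Init

/-!
Numbers from 64 parts, the lowest part first: `J` for parts of 63 bits, `K` for parts of 4032 bits (64 times 63),
`J4` for parts of 252 bits and `K4` for parts of 16128 bits (64 times 252).
-/

set_option autoImplicit false

namespace Pool.Agent.H32.Z12

/-- the number with the digits `a0, ..., a63` in base `2 ^ 63` -/
def J (a0 a1 a2 a3 a4 a5 a6 a7 a8 a9 a10 a11 a12 a13 a14 a15 a16 a17 a18 a19 a20 a21 a22 a23 a24 a25 a26 a27 a28 a29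
    a30 a31 a32 a33 a34 a35 a36 a37 a38 a39 a40 a41 a42 a43 a44 a45 a46 a47 a48 a49 a50 a51 a52 a53 a54 a55 a56
    a57 a58 a59 a60 a61 a62 a63 : Nat) : Nat :=
  Nat.lor (Nat.lor (Nat.lor (Nat.lor (Nat.lor (Nat.lor a0 (Nat.shiftLeft a1 (nat_lit 63))) (Nat.shiftLeft
    (Nat.lor a2 (Nat.shiftLeft a3 (nat_lit 63))) (nat_lit 126))) (Nat.shiftLeft (Nat.lor (Nat.lor a4
    (Nat.shiftLeft a5 (nat_lit 63))) (Nat.shiftLeft (Nat.lor a6 (Nat.shiftLeft a7 (nat_lit 63))) (nat_lit 126)))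
    (nat_lit 252))) (Nat.shiftLeft (Nat.lor (Nat.lor (Nat.lor a8 (Nat.shiftLeft a9 (nat_lit 63))) (Nat.shiftLeft
    (Nat.lor a10 (Nat.shiftLeft a11 (nat_lit 63))) (nat_lit 126))) (Nat.shiftLeft (Nat.lor (Nat.lor a12
    (Nat.shiftLeft a13 (nat_lit 63))) (Nat.shiftLeft (Nat.lor a14 (Nat.shiftLeft a15 (nat_lit 63))) (nat_lit
    126))) (nat_lit 252))) (nat_lit 504))) (Nat.shiftLeft (Nat.lor (Nat.lor (Nat.lor (Nat.lor a16 (Nat.shiftLeft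
    a17 (nat_lit 63))) (Nat.shiftLeft (Nat.lor a18 (Nat.shiftLeft a19 (nat_lit 63))) (nat_lit 126)))
    (Nat.shiftLeft (Nat.lor (Nat.lor a20 (Nat.shiftLeft a21 (nat_lit 63))) (Nat.shiftLeft (Nat.lor a22
    (Nat.shiftLeft a23 (nat_lit 63))) (nat_lit 126))) (nat_lit 252))) (Nat.shiftLeft (Nat.lor (Nat.lor (Nat.lor
    a24 (Nat.shiftLeft a25 (nat_lit 63))) (Nat.shiftLeft (Nat.lor a26 (Nat.shiftLeft a27 (nat_lit 63))) (nat_lit
    126))) (Nat.shiftLeft (Nat.lor (Nat.lor a28 (Nat.shiftLeft a29 (nat_lit 63))) (Nat.shiftLeft (Nat.lor a30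
    (Nat.shiftLeft a31 (nat_lit 63))) (nat_lit 126))) (nat_lit 252))) (nat_lit 504))) (nat_lit 1008)))
    (Nat.shiftLeft (Nat.lor (Nat.lor (Nat.lor (Nat.lor (Nat.lor a32 (Nat.shiftLeft a33 (nat_lit 63)))
    (Nat.shiftLeft (Nat.lor a34 (Nat.shiftLeft a35 (nat_lit 63))) (nat_lit 126))) (Nat.shiftLeft (Nat.lor (Nat.lor
    a36 (Nat.shiftLeft a37 (nat_lit 63))) (Nat.shiftLeft (Nat.lor a38 (Nat.shiftLeft a39 (nat_lit 63))) (nat_lit
    126))) (nat_lit 252))) (Nat.shiftLeft (Nat.lor (Nat.lor (Nat.lor a40 (Nat.shiftLeft a41 (nat_lit 63)))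
    (Nat.shiftLeft (Nat.lor a42 (Nat.shiftLeft a43 (nat_lit 63))) (nat_lit 126))) (Nat.shiftLeft (Nat.lor (Nat.lor
    a44 (Nat.shiftLeft a45 (nat_lit 63))) (Nat.shiftLeft (Nat.lor a46 (Nat.shiftLeft a47 (nat_lit 63))) (nat_lit
    126))) (nat_lit 252))) (nat_lit 504))) (Nat.shiftLeft (Nat.lor (Nat.lor (Nat.lor (Nat.lor a48 (Nat.shiftLeft
    a49 (nat_lit 63))) (Nat.shiftLeft (Nat.lor a50 (Nat.shiftLeft a51 (nat_lit 63))) (nat_lit 126)))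
    (Nat.shiftLeft (Nat.lor (Nat.lor a52 (Nat.shiftLeft a53 (nat_lit 63))) (Nat.shiftLeft (Nat.lor a54
    (Nat.shiftLeft a55 (nat_lit 63))) (nat_lit 126))) (nat_lit 252))) (Nat.shiftLeft (Nat.lor (Nat.lor (Nat.lor
    a56 (Nat.shiftLeft a57 (nat_lit 63))) (Nat.shiftLeft (Nat.lor a58 (Nat.shiftLeft a59 (nat_lit 63))) (nat_lit
    126))) (Nat.shiftLeft (Nat.lor (Nat.lor a60 (Nat.shiftLeft a61 (nat_lit 63))) (Nat.shiftLeft (Nat.lor a62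
    (Nat.shiftLeft a63 (nat_lit 63))) (nat_lit 126))) (nat_lit 252))) (nat_lit 504))) (nat_lit 1008))) (nat_lit
    2016))

/-- the number with the digits `a0, ..., a63` in base `2 ^ 4032` -/
def K (a0 a1 a2 a3 a4 a5 a6 a7 a8 a9 a10 a11 a12 a13 a14 a15 a16 a17 a18 a19 a20 a21 a22 a23 a24 a25 a26 a27 a28 a29
    a30 a31 a32 a33 a34 a35 a36 a37 a38 a39 a40 a41 a42 a43 a44 a45 a46 a47 a48 a49 a50 a51 a52 a53 a54 a55 a56
    a57 a58 a59 a60 a61 a62 a63 : Nat) : Nat :=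
  Nat.lor (Nat.lor (Nat.lor (Nat.lor (Nat.lor (Nat.lor a0 (Nat.shiftLeft a1 (nat_lit 4032))) (Nat.shiftLeft
    (Nat.lor a2 (Nat.shiftLeft a3 (nat_lit 4032))) (nat_lit 8064))) (Nat.shiftLeft (Nat.lor (Nat.lor a4
    (Nat.shiftLeft a5 (nat_lit 4032))) (Nat.shiftLeft (Nat.lor a6 (Nat.shiftLeft a7 (nat_lit 4032))) (nat_lit
    8064))) (nat_lit 16128))) (Nat.shiftLeft (Nat.lor (Nat.lor (Nat.lor a8 (Nat.shiftLeft a9 (nat_lit 4032)))
    (Nat.shiftLeft (Nat.lor a10 (Nat.shiftLeft a11 (nat_lit 4032))) (nat_lit 8064))) (Nat.shiftLeft (Nat.lor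
    (Nat.lor a12 (Nat.shiftLeft a13 (nat_lit 4032))) (Nat.shiftLeft (Nat.lor a14 (Nat.shiftLeft a15 (nat_lit
    4032))) (nat_lit 8064))) (nat_lit 16128))) (nat_lit 32256))) (Nat.shiftLeft (Nat.lor (Nat.lor (Nat.lor
    (Nat.lor a16 (Nat.shiftLeft a17 (nat_lit 4032))) (Nat.shiftLeft (Nat.lor a18 (Nat.shiftLeft a19 (nat_lit
    4032))) (nat_lit 8064))) (Nat.shiftLeft (Nat.lor (Nat.lor a20 (Nat.shiftLeft a21 (nat_lit 4032)))
    (Nat.shiftLeft (Nat.lor a22 (Nat.shiftLeft a23 (nat_lit 4032))) (nat_lit 8064))) (nat_lit 16128)))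
    (Nat.shiftLeft (Nat.lor (Nat.lor (Nat.lor a24 (Nat.shiftLeft a25 (nat_lit 4032))) (Nat.shiftLeft (Nat.lor a26
    (Nat.shiftLeft a27 (nat_lit 4032))) (nat_lit 8064))) (Nat.shiftLeft (Nat.lor (Nat.lor a28 (Nat.shiftLeft a29
    (nat_lit 4032))) (Nat.shiftLeft (Nat.lor a30 (Nat.shiftLeft a31 (nat_lit 4032))) (nat_lit 8064))) (nat_lit
    16128))) (nat_lit 32256))) (nat_lit 64512))) (Nat.shiftLeft (Nat.lor (Nat.lor (Nat.lor (Nat.lor (Nat.lor a32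
    (Nat.shiftLeft a33 (nat_lit 4032))) (Nat.shiftLeft (Nat.lor a34 (Nat.shiftLeft a35 (nat_lit 4032))) (nat_lit
    8064))) (Nat.shiftLeft (Nat.lor (Nat.lor a36 (Nat.shiftLeft a37 (nat_lit 4032))) (Nat.shiftLeft (Nat.lor a38
    (Nat.shiftLeft a39 (nat_lit 4032))) (nat_lit 8064))) (nat_lit 16128))) (Nat.shiftLeft (Nat.lor (Nat.lor
    (Nat.lor a40 (Nat.shiftLeft a41 (nat_lit 4032))) (Nat.shiftLeft (Nat.lor a42 (Nat.shiftLeft a43 (nat_lit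
    4032))) (nat_lit 8064))) (Nat.shiftLeft (Nat.lor (Nat.lor a44 (Nat.shiftLeft a45 (nat_lit 4032)))
    (Nat.shiftLeft (Nat.lor a46 (Nat.shiftLeft a47 (nat_lit 4032))) (nat_lit 8064))) (nat_lit 16128))) (nat_lit
    32256))) (Nat.shiftLeft (Nat.lor (Nat.lor (Nat.lor (Nat.lor a48 (Nat.shiftLeft a49 (nat_lit 4032)))
    (Nat.shiftLeft (Nat.lor a50 (Nat.shiftLeft a51 (nat_lit 4032))) (nat_lit 8064))) (Nat.shiftLeft (Nat.lor
    (Nat.lor a52 (Nat.shiftLeft a53 (nat_lit 4032))) (Nat.shiftLeft (Nat.lor a54 (Nat.shiftLeft a55 (nat_lit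
    4032))) (nat_lit 8064))) (nat_lit 16128))) (Nat.shiftLeft (Nat.lor (Nat.lor (Nat.lor a56 (Nat.shiftLeft a57
    (nat_lit 4032))) (Nat.shiftLeft (Nat.lor a58 (Nat.shiftLeft a59 (nat_lit 4032))) (nat_lit 8064)))
    (Nat.shiftLeft (Nat.lor (Nat.lor a60 (Nat.shiftLeft a61 (nat_lit 4032))) (Nat.shiftLeft (Nat.lor a62
    (Nat.shiftLeft a63 (nat_lit 4032))) (nat_lit 8064))) (nat_lit 16128))) (nat_lit 32256))) (nat_lit 64512)))
    (nat_lit 129024))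

/-- the number with the digits `a0, ..., a63` in base `2 ^ 252` -/
def J4 (a0 a1 a2 a3 a4 a5 a6 a7 a8 a9 a10 a11 a12 a13 a14 a15 a16 a17 a18 a19 a20 a21 a22 a23 a24 a25 a26 a27 a28 a29
    a30 a31 a32 a33 a34 a35 a36 a37 a38 a39 a40 a41 a42 a43 a44 a45 a46 a47 a48 a49 a50 a51 a52 a53 a54 a55 a56
    a57 a58 a59 a60 a61 a62 a63 : Nat) : Nat :=
  Nat.lor (Nat.lor (Nat.lor (Nat.lor (Nat.lor (Nat.lor a0 (Nat.shiftLeft a1 (nat_lit 252))) (Nat.shiftLeft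
    (Nat.lor a2 (Nat.shiftLeft a3 (nat_lit 252))) (nat_lit 504))) (Nat.shiftLeft (Nat.lor (Nat.lor a4
    (Nat.shiftLeft a5 (nat_lit 252))) (Nat.shiftLeft (Nat.lor a6 (Nat.shiftLeft a7 (nat_lit 252))) (nat_lit 504)))
    (nat_lit 1008))) (Nat.shiftLeft (Nat.lor (Nat.lor (Nat.lor a8 (Nat.shiftLeft a9 (nat_lit 252))) (Nat.shiftLeft
    (Nat.lor a10 (Nat.shiftLeft a11 (nat_lit 252))) (nat_lit 504))) (Nat.shiftLeft (Nat.lor (Nat.lor a12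
    (Nat.shiftLeft a13 (nat_lit 252))) (Nat.shiftLeft (Nat.lor a14 (Nat.shiftLeft a15 (nat_lit 252))) (nat_lit
    504))) (nat_lit 1008))) (nat_lit 2016))) (Nat.shiftLeft (Nat.lor (Nat.lor (Nat.lor (Nat.lor a16 (Nat.shiftLeft
    a17 (nat_lit 252))) (Nat.shiftLeft (Nat.lor a18 (Nat.shiftLeft a19 (nat_lit 252))) (nat_lit 504)))
    (Nat.shiftLeft (Nat.lor (Nat.lor a20 (Nat.shiftLeft a21 (nat_lit 252))) (Nat.shiftLeft (Nat.lor a22
    (Nat.shiftLeft a23 (nat_lit 252))) (nat_lit 504))) (nat_lit 1008))) (Nat.shiftLeft (Nat.lor (Nat.lor (Nat.lor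
    a24 (Nat.shiftLeft a25 (nat_lit 252))) (Nat.shiftLeft (Nat.lor a26 (Nat.shiftLeft a27 (nat_lit 252))) (nat_lit
    504))) (Nat.shiftLeft (Nat.lor (Nat.lor a28 (Nat.shiftLeft a29 (nat_lit 252))) (Nat.shiftLeft (Nat.lor a30
    (Nat.shiftLeft a31 (nat_lit 252))) (nat_lit 504))) (nat_lit 1008))) (nat_lit 2016))) (nat_lit 4032)))
    (Nat.shiftLeft (Nat.lor (Nat.lor (Nat.lor (Nat.lor (Nat.lor a32 (Nat.shiftLeft a33 (nat_lit 252)))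
    (Nat.shiftLeft (Nat.lor a34 (Nat.shiftLeft a35 (nat_lit 252))) (nat_lit 504))) (Nat.shiftLeft (Nat.lor
    (Nat.lor a36 (Nat.shiftLeft a37 (nat_lit 252))) (Nat.shiftLeft (Nat.lor a38 (Nat.shiftLeft a39 (nat_lit 252)))
    (nat_lit 504))) (nat_lit 1008))) (Nat.shiftLeft (Nat.lor (Nat.lor (Nat.lor a40 (Nat.shiftLeft a41 (nat_lit
    252))) (Nat.shiftLeft (Nat.lor a42 (Nat.shiftLeft a43 (nat_lit 252))) (nat_lit 504))) (Nat.shiftLeft (Nat.lor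
    (Nat.lor a44 (Nat.shiftLeft a45 (nat_lit 252))) (Nat.shiftLeft (Nat.lor a46 (Nat.shiftLeft a47 (nat_lit 252)))
    (nat_lit 504))) (nat_lit 1008))) (nat_lit 2016))) (Nat.shiftLeft (Nat.lor (Nat.lor (Nat.lor (Nat.lor a48
    (Nat.shiftLeft a49 (nat_lit 252))) (Nat.shiftLeft (Nat.lor a50 (Nat.shiftLeft a51 (nat_lit 252))) (nat_lit
    504))) (Nat.shiftLeft (Nat.lor (Nat.lor a52 (Nat.shiftLeft a53 (nat_lit 252))) (Nat.shiftLeft (Nat.lor a54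
    (Nat.shiftLeft a55 (nat_lit 252))) (nat_lit 504))) (nat_lit 1008))) (Nat.shiftLeft (Nat.lor (Nat.lor (Nat.lor
    a56 (Nat.shiftLeft a57 (nat_lit 252))) (Nat.shiftLeft (Nat.lor a58 (Nat.shiftLeft a59 (nat_lit 252))) (nat_lit
    504))) (Nat.shiftLeft (Nat.lor (Nat.lor a60 (Nat.shiftLeft a61 (nat_lit 252))) (Nat.shiftLeft (Nat.lor a62
    (Nat.shiftLeft a63 (nat_lit 252))) (nat_lit 504))) (nat_lit 1008))) (nat_lit 2016))) (nat_lit 4032))) (nat_lit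
    8064))

/-- the number with the digits `a0, ..., a63` in base `2 ^ 16128` -/
def K4 (a0 a1 a2 a3 a4 a5 a6 a7 a8 a9 a10 a11 a12 a13 a14 a15 a16 a17 a18 a19 a20 a21 a22 a23 a24 a25 a26 a27 a28 a29
    a30 a31 a32 a33 a34 a35 a36 a37 a38 a39 a40 a41 a42 a43 a44 a45 a46 a47 a48 a49 a50 a51 a52 a53 a54 a55 a56
    a57 a58 a59 a60 a61 a62 a63 : Nat) : Nat :=
  Nat.lor (Nat.lor (Nat.lor (Nat.lor (Nat.lor (Nat.lor a0 (Nat.shiftLeft a1 (nat_lit 16128))) (Nat.shiftLeft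
    (Nat.lor a2 (Nat.shiftLeft a3 (nat_lit 16128))) (nat_lit 32256))) (Nat.shiftLeft (Nat.lor (Nat.lor a4
    (Nat.shiftLeft a5 (nat_lit 16128))) (Nat.shiftLeft (Nat.lor a6 (Nat.shiftLeft a7 (nat_lit 16128))) (nat_lit
    32256))) (nat_lit 64512))) (Nat.shiftLeft (Nat.lor (Nat.lor (Nat.lor a8 (Nat.shiftLeft a9 (nat_lit 16128)))
    (Nat.shiftLeft (Nat.lor a10 (Nat.shiftLeft a11 (nat_lit 16128))) (nat_lit 32256))) (Nat.shiftLeft (Nat.lor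
    (Nat.lor a12 (Nat.shiftLeft a13 (nat_lit 16128))) (Nat.shiftLeft (Nat.lor a14 (Nat.shiftLeft a15 (nat_lit
    16128))) (nat_lit 32256))) (nat_lit 64512))) (nat_lit 129024))) (Nat.shiftLeft (Nat.lor (Nat.lor (Nat.lor
    (Nat.lor a16 (Nat.shiftLeft a17 (nat_lit 16128))) (Nat.shiftLeft (Nat.lor a18 (Nat.shiftLeft a19 (nat_lit
    16128))) (nat_lit 32256))) (Nat.shiftLeft (Nat.lor (Nat.lor a20 (Nat.shiftLeft a21 (nat_lit 16128)))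
    (Nat.shiftLeft (Nat.lor a22 (Nat.shiftLeft a23 (nat_lit 16128))) (nat_lit 32256))) (nat_lit 64512)))
    (Nat.shiftLeft (Nat.lor (Nat.lor (Nat.lor a24 (Nat.shiftLeft a25 (nat_lit 16128))) (Nat.shiftLeft (Nat.lor a26
    (Nat.shiftLeft a27 (nat_lit 16128))) (nat_lit 32256))) (Nat.shiftLeft (Nat.lor (Nat.lor a28 (Nat.shiftLeft a29
    (nat_lit 16128))) (Nat.shiftLeft (Nat.lor a30 (Nat.shiftLeft a31 (nat_lit 16128))) (nat_lit 32256))) (nat_lit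
    64512))) (nat_lit 129024))) (nat_lit 258048))) (Nat.shiftLeft (Nat.lor (Nat.lor (Nat.lor (Nat.lor (Nat.lor a32
    (Nat.shiftLeft a33 (nat_lit 16128))) (Nat.shiftLeft (Nat.lor a34 (Nat.shiftLeft a35 (nat_lit 16128))) (nat_lit
    32256))) (Nat.shiftLeft (Nat.lor (Nat.lor a36 (Nat.shiftLeft a37 (nat_lit 16128))) (Nat.shiftLeft (Nat.lor a38
    (Nat.shiftLeft a39 (nat_lit 16128))) (nat_lit 32256))) (nat_lit 64512))) (Nat.shiftLeft (Nat.lor (Nat.lor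
    (Nat.lor a40 (Nat.shiftLeft a41 (nat_lit 16128))) (Nat.shiftLeft (Nat.lor a42 (Nat.shiftLeft a43 (nat_lit
    16128))) (nat_lit 32256))) (Nat.shiftLeft (Nat.lor (Nat.lor a44 (Nat.shiftLeft a45 (nat_lit 16128)))
    (Nat.shiftLeft (Nat.lor a46 (Nat.shiftLeft a47 (nat_lit 16128))) (nat_lit 32256))) (nat_lit 64512))) (nat_lit
    129024))) (Nat.shiftLeft (Nat.lor (Nat.lor (Nat.lor (Nat.lor a48 (Nat.shiftLeft a49 (nat_lit 16128)))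
    (Nat.shiftLeft (Nat.lor a50 (Nat.shiftLeft a51 (nat_lit 16128))) (nat_lit 32256))) (Nat.shiftLeft (Nat.lor
    (Nat.lor a52 (Nat.shiftLeft a53 (nat_lit 16128))) (Nat.shiftLeft (Nat.lor a54 (Nat.shiftLeft a55 (nat_lit
    16128))) (nat_lit 32256))) (nat_lit 64512))) (Nat.shiftLeft (Nat.lor (Nat.lor (Nat.lor a56 (Nat.shiftLeft a57
    (nat_lit 16128))) (Nat.shiftLeft (Nat.lor a58 (Nat.shiftLeft a59 (nat_lit 16128))) (nat_lit 32256)))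
    (Nat.shiftLeft (Nat.lor (Nat.lor a60 (Nat.shiftLeft a61 (nat_lit 16128))) (Nat.shiftLeft (Nat.lor a62
    (Nat.shiftLeft a63 (nat_lit 16128))) (nat_lit 32256))) (nat_lit 64512))) (nat_lit 129024))) (nat_lit 258048)))
    (nat_lit 516096))

end Pool.Agent.H32.Z12
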